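import Pool.Agent.Lib_MP_272625_ins.Core

/-!
# Left-reflection sets of joins in the weak order of a finite Coxeter group

For every finite Coxeter system and every set `U` of elements, the join `j` of `U` in the right
weak order exists and is unique, and `T_L(j) = T ∩ V(U)`, where `V(U)` is the set of the vertices
of the directed paths of the Bruhat graph that start at the identity and have labels in the union
of the sets `T_L(u)`, `u ∈ U`. Moreover `V(U)` is the set of all `x` with `j⁻¹ x ≤ j⁻¹` in the
Bruhat order.
-/

set_option autoImplicit false

namespace Pool.Agent.Results.MP_272625_co.JoinsOfSets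

open Pool.Agent.Lib_MP_272625_ins

theorem result {B W : Type*} [Group W] [Finite W] {M : CoxeterMatrix B} (cs : CoxeterSystem M W)
    (U : Set W) :
    ∃ j : W, IsJoin cs U j ∧ (∀ j', IsJoin cs U j' → j' = j) ∧
      leftReflections cs j = {t | cs.IsReflection t} ∩ pathVertices cs U ∧
      pathVertices cs U = {x | BruhatLE cs (j⁻¹ * x) j⁻¹} :=
  main cs U

end Pool.Agent.Results.MP_272625_co.JoinsOfSets
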